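import Pool.Agent.Lib.MP_6bc78b_nt.MS.P5.H59.MomkAux
import Pool.Agent.Lib.MP_6bc78b_nt.MS.P5.H23.MVF
import Pool.Agent.Lib.MP_6bc78b_nt.MS.P5.H51.Mov

/-! Project MS, Part V, module MOMK: moments over the zeros. -/

set_option autoImplicit false

open Complex Filter Topology MeasureTheory ArithmeticFunction

namespace Pool.Agent.Lib.MP_6bc78b_nt.MS.P5.H59

open Pool.Agent.Lib.MP_6bc78b_nt.MS Pool.Agent.Lib.MP_6bc78b_nt.MS.P1
open Pool.Agent.Lib.MP_6bc78b_nt.MS.P5

lemma BP_conj (lam T : ℝ) (s : ℂ) :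
    BP lam T ((starRingEnd ℂ) s) = (starRingEnd ℂ) (BP lam T s) := by
  unfold BP dpoly
  rw [map_sum]
  refine Finset.sum_congr rfl (fun n hn => ?_)
  rw [Finset.mem_Icc] at hn
  rw [map_mul, Complex.conj_ofReal]
  congr 1
  have hn' : (n : ℂ) ≠ 0 := by exact_mod_cast (by omega : n ≠ 0)
  rw [Complex.cpow_def_of_ne_zero hn', Complex.cpow_def_of_ne_zero hn', ← Complex.exp_conj,
    map_mul, map_neg, ← Complex.natCast_log, Complex.conj_ofReal]

lemma BP_diff (lam T : ℝ) : Differentiable ℂ (BP lam T) := by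
  unfold BP dpoly
  apply Differentiable.fun_sum
  intro n hn
  rw [Finset.mem_Icc] at hn
  have hn' : (n : ℂ) ≠ 0 := by exact_mod_cast (by omega : n ≠ 0)
  apply Differentiable.const_mul
  intro s
  exact (DifferentiableAt.const_cpow (by fun_prop) (Or.inl hn'))

lemma re_const (z : ℂ) : ((1 / (2 * Real.pi) : ℂ) * z).re = 1 / (2 * Real.pi) * z.re := by
  have : (1 / (2 * Real.pi) : ℂ) = ((1 / (2 * Real.pi) : ℝ) : ℂ) := by push_cast; rfl
  rw [this, Complex.re_ofReal_mul]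

/-- The part with `ω`, on the critical line. -/
lemma om_line (hchi : ChiStatement) (C T : ℝ) (hT : 1 < T) (hC : ∀ t : ℝ, T / 2 ≤ t → t ≤ 2 * T →
    (om (1 / 2 + t * I)).re ≤ Real.log T) (P : ℂ → ℂ) (hP : Continuous P) (F : ℂ → ℂ)
    (hF : ∀ t : ℝ, F (1 / 2 + t * I) = ((‖P (1 / 2 + t * I)‖ ^ 2 : ℝ) : ℂ)) 
    (hFint : Integrable (fun t : ℝ => F (((1 / 2 : ℝ) : ℂ) + t * I) *
      WW T (((1 / 2 : ℝ) : ℂ) + t * I))) (hFc : Continuous F) (Q : ℝ)
    (hQ : (1 / (2 * Real.pi)) * ∫ t : ℝ, ‖P (1 / 2 + t * I)‖ ^ 2 * MS.wt T t ≤ Q) :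
    (VF (1 / 2) T (fun s => om s * F s * WW T s)).re ≤ Real.log T * Q := by
  have hhalf : (((1 / 2 : ℝ)) : ℂ) = 1 / 2 := H23.half_cast
  have hlog : 0 < Real.log T := Real.log_pos hT
  unfold VF
  rw [re_const]
  have hcont : ContinuousOn (fun t : ℝ => om (((1 / 2 : ℝ) : ℂ) + t * I) *
      F (((1 / 2 : ℝ) : ℂ) + t * I) * WW T (((1 / 2 : ℝ) : ℂ) + t * I))
      (Set.uIcc (T / 2) (2 * T)) := by
    intro t ht
    rw [Set.uIcc_of_le (by linarith)] at ht
    have h1 : DifferentiableAt ℂ om (((1 / 2 : ℝ) : ℂ) + t * I) :=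
      H51.om_diff hchi _ (by simp) (by
        simp only [Complex.add_im, Complex.ofReal_im, Complex.mul_im, Complex.ofReal_re,
          Complex.I_im, Complex.I_re, mul_one, mul_zero, add_zero, zero_add]
        have := ht.1
        intro h
        linarith)
    have hline : Continuous (fun t : ℝ => (((1 / 2 : ℝ) : ℂ) + t * I : ℂ)) := by fun_prop
    have h2 : ContinuousAt (fun t : ℝ => om (((1 / 2 : ℝ) : ℂ) + t * I)) t :=
      ContinuousAt.comp (f := fun t : ℝ => (((1 / 2 : ℝ) : ℂ) + t * I : ℂ)) (g := om)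
        h1.continuousAt hline.continuousAt
    have hW : Continuous (WW T) := by unfold WW; fun_prop
    exact ((h2.mul (hFc.comp hline).continuousAt).mul
      (hW.comp hline).continuousAt).continuousWithinAt
  have hii := hcont.intervalIntegrable (μ := volume)
  have hre : (∫ t in (T / 2)..(2 * T), om (((1 / 2 : ℝ) : ℂ) + t * I) *
      F (((1 / 2 : ℝ) : ℂ) + t * I) * WW T (((1 / 2 : ℝ) : ℂ) + t * I)).re =
      ∫ t in (T / 2)..(2 * T), (om (((1 / 2 : ℝ) : ℂ) + t * I) *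
      F (((1 / 2 : ℝ) : ℂ) + t * I) * WW T (((1 / 2 : ℝ) : ℂ) + t * I)).re :=
    (Complex.reCLM.intervalIntegral_comp_comm hii).symm
  rw [hre]
  have hFW : ∀ t : ℝ, F (((1 / 2 : ℝ) : ℂ) + t * I) * WW T (((1 / 2 : ℝ) : ℂ) + t * I) =
      ((‖P (1 / 2 + t * I)‖ ^ 2 * MS.wt T t : ℝ) : ℂ) := by
    intro t
    rw [H23.WW_half, hhalf, hF]
    push_cast
    rfl
  have hgint : Integrable (fun t : ℝ => ‖P (1 / 2 + t * I)‖ ^ 2 * MS.wt T t) := by
    have h1 := hFint.re
    refine h1.congr (Filter.Eventually.of_forall (fun t => ?_))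
    show (F (((1 / 2 : ℝ) : ℂ) + t * I) * WW T (((1 / 2 : ℝ) : ℂ) + t * I)).re = _
    rw [hFW t, Complex.ofReal_re]
  have hg0 : ∀ t : ℝ, 0 ≤ ‖P (1 / 2 + t * I)‖ ^ 2 * MS.wt T t := by
    intro t
    have : 0 ≤ MS.wt T t := (Real.exp_pos _).le
    positivity
  have hle : ∫ t in (T / 2)..(2 * T), (om (((1 / 2 : ℝ) : ℂ) + t * I) *
      F (((1 / 2 : ℝ) : ℂ) + t * I) * WW T (((1 / 2 : ℝ) : ℂ) + t * I)).re ≤
      ∫ t in (T / 2)..(2 * T), Real.log T * (‖P (1 / 2 + t * I)‖ ^ 2 * MS.wt T t) := by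
    apply intervalIntegral.integral_mono_on (by linarith)
    · exact (Complex.continuous_re.comp_continuousOn hcont).intervalIntegrable
    · exact (hgint.const_mul _).intervalIntegrable
    · intro t ht
      rw [mul_assoc, hFW t, Complex.re_mul_ofReal, hhalf]
      exact mul_le_mul_of_nonneg_right (hC t ht.1 ht.2) (hg0 t)
  have hle2 : ∫ t in (T / 2)..(2 * T), Real.log T * (‖P (1 / 2 + t * I)‖ ^ 2 * MS.wt T t) ≤
      Real.log T * ∫ t : ℝ, ‖P (1 / 2 + t * I)‖ ^ 2 * MS.wt T t := by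
    rw [intervalIntegral.integral_const_mul, intervalIntegral.integral_of_le (by linarith)]
    exact mul_le_mul_of_nonneg_left
      (setIntegral_le_integral hgint (Filter.Eventually.of_forall hg0)) hlog.le
  have hpi : 0 < 1 / (2 * Real.pi) := by positivity
  calc 1 / (2 * Real.pi) * _ ≤ 1 / (2 * Real.pi) *
        (Real.log T * ∫ t : ℝ, ‖P (1 / 2 + t * I)‖ ^ 2 * MS.wt T t) :=
        mul_le_mul_of_nonneg_left (hle.trans hle2) hpi.le
    _ = Real.log T * ((1 / (2 * Real.pi)) * ∫ t : ℝ, ‖P (1 / 2 + t * I)‖ ^ 2 * MS.wt T t) := by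
        ring
    _ ≤ Real.log T * Q := mul_le_mul_of_nonneg_left hQ hlog.le

lemma om_re_le (C T : ℝ) (hT : 20 ≤ T) (hCT : 2 * C ≤ T)
    (hC : ∀ s : ℂ, 0 < s.re → s.re ≤ 2 → 1 ≤ s.im →
      ‖om s - (Real.log (s.im / (2 * Real.pi)) : ℂ)‖ ≤ C / s.im) (t : ℝ) (h1 : T / 2 ≤ t)
    (h2 : t ≤ 2 * T) : (om (1 / 2 + t * I)).re ≤ Real.log T := by
  have him : (1 / 2 + t * I : ℂ).im = t := by simp
  have hre : (1 / 2 + t * I : ℂ).re = 1 / 2 := by simp
  have h3 := hC (1 / 2 + t * I) (by rw [hre]; norm_num) (by rw [hre]; norm_num)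
    (by rw [him]; linarith)
  rw [him] at h3
  have h4 : (om (1 / 2 + t * I)).re - Real.log (t / (2 * Real.pi)) ≤ C / t := by
    have h5 := Complex.abs_re_le_norm (om (1 / 2 + t * I) - (Real.log (t / (2 * Real.pi)) : ℂ))
    rw [Complex.sub_re, Complex.ofReal_re] at h5
    exact (le_abs_self _).trans (h5.trans h3)
  have h5 : C / t ≤ 1 := by
    rw [div_le_one (by linarith)]
    linarith
  have hpi := Real.pi_gt_three
  have h6 : Real.log (t / (2 * Real.pi)) ≤ Real.log T - 1 := by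
    have h7 : t / (2 * Real.pi) ≤ T * Real.exp (-1) := by
      rw [div_le_iff₀ (by positivity)]
      have h8 : (1 : ℝ) / 3 ≤ Real.exp (-1) := by
        rw [Real.exp_neg, ← one_div]
        have := Real.exp_one_lt_d9
        have := Real.exp_pos (1 : ℝ)
        apply one_div_le_one_div_of_le this
        linarith
      have h9 : T * (1 / 3) * (2 * 3) ≤ T * Real.exp (-1) * (2 * Real.pi) := by
        gcongr
      linarith
    calc Real.log (t / (2 * Real.pi)) ≤ Real.log (T * Real.exp (-1)) :=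
          Real.log_le_log (by apply div_pos <;> linarith) h7
      _ = Real.log T - 1 := by
          rw [Real.log_mul (by linarith) (Real.exp_pos _).ne', Real.log_exp]
          ring
  linarith

/-- The part with `ζ'/ζ`. -/
lemma zeta_part (hLS : LSerStatement) (c T δ A lam : ℝ) (k : ℕ) (hc1 : 1 < c) (hcG : 0 < cG T)
    (hT : 1 < T)
    (hk : k * lam ≤ 1 - δ)
    (hET : ∀ a b : ℕ → ℂ,
      Summable (fun n : ℕ => ‖a n‖ * (n : ℝ) ^ (-c)) →
      (∑' n : ℕ, ‖a n‖ * (n : ℝ) ^ (-c)) ≤ T ^ A → (∀ k, ‖b k‖ ≤ T ^ A) →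
      ‖VI c (fun s => LSeries a s *
        (∑ k ∈ Finset.Icc 1 ⌊T ^ (1 - δ)⌋₊, b k * (k : ℂ) ^ (-(1 - s))) * WW T s) -
        (cG T : ℂ) * ∑ k ∈ Finset.Icc 1 ⌊T ^ (1 - δ)⌋₊, a k * b k / k‖ ≤ 1 / T)
    (hA1 : ASum c (La * bp lam T ^ k)) (hA2 : AN c (La * bp lam T ^ k) ≤ T ^ A)
    (hA3 : ∀ n, 0 ≤ (bp lam T ^ k) n ∧ (bp lam T ^ k) n ≤ T ^ A)
    (hAb : ASum c (bp lam T)) :
    (VI c (fun s => logDeriv riemannZeta s * (BP lam T s ^ k * BP lam T (1 - s) ^ k) *
      WW T s)).re ≤ 1 / T := by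
  have hM : ∀ n, ⌊T ^ (1 - δ)⌋₊ < n → (bp lam T ^ k) n = 0 := by
    intro n hn
    by_contra h
    exact absurd (Nat.le_floor (pow_supp' lam T δ k hT hk n h)) (by omega)
  have hnorm : ∀ n : ℕ, ‖(((La * bp lam T ^ k) n : ℝ) : ℂ)‖ * (n : ℝ) ^ (-c) =
      |(La * bp lam T ^ k) n| * (n : ℝ) ^ (-c) := by
    intro n
    rw [Complex.norm_real, Real.norm_eq_abs]
  have he := hET (fun n => (((La * bp lam T ^ k) n : ℝ) : ℂ))
    (fun j => (((bp lam T ^ k) j : ℝ) : ℂ))
    (by simp_rw [hnorm]; exact hA1) (by simp_rw [hnorm]; exact hA2) (fun j => by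
      rw [Complex.norm_real, Real.norm_eq_abs, abs_of_nonneg (hA3 j).1]
      exact (hA3 j).2)
  have hre : ∀ t : ℝ, (c + t * I : ℂ).re = c := by intro t; simp
  obtain ⟨hALa, -, -⟩ := hLS.2.2.2.1 c hc1
  obtain ⟨hp1, -, hp3⟩ := pow_data hLS c (bp lam T) hAb k
  obtain ⟨-, -, h6⟩ := hLS.2.2.2.2.1 c La (bp lam T ^ k) hALa hp1
  have h1 : VI c (fun s => LSeries (fun n => (((La * bp lam T ^ k) n : ℝ) : ℂ)) s *
      (∑ j ∈ Finset.Icc 1 ⌊T ^ (1 - δ)⌋₊, (((bp lam T ^ k) j : ℝ) : ℂ) *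
        (j : ℂ) ^ (-(1 - s))) * WW T s) =
      - VI c (fun s => logDeriv riemannZeta s * (BP lam T s ^ k * BP lam T (1 - s) ^ k) *
        WW T s) := by
    rw [← ZBB.VI_neg]
    apply ZBB.VI_congr
    intro t
    have h2 : LSeries (fun n => (((La * bp lam T ^ k) n : ℝ) : ℂ)) (c + t * I) =
        (-logDeriv riemannZeta (c + t * I)) * BP lam T (c + t * I) ^ k := by
      have h3 := h6 (c + t * I) (hre t)
      rw [hLS.1 _ (by rw [hre]; exact hc1), hp3 _ (hre t), ← BP_eq_LS] at h3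
      exact h3
    have h4 := BP_pow hLS lam T k _ hM (1 - (c + t * I))
    rw [h2, ← h4]
    ring
  rw [h1] at he
  set V := VI c (fun s => logDeriv riemannZeta s * (BP lam T s ^ k * BP lam T (1 - s) ^ k) *
        WW T s) with hV
  have h2 : (cG T : ℂ) * ∑ j ∈ Finset.Icc 1 ⌊T ^ (1 - δ)⌋₊, (((La * bp lam T ^ k) j : ℝ) : ℂ) *
      (((bp lam T ^ k) j : ℝ) : ℂ) / (j : ℂ) =
      ((cG T * ∑ j ∈ Finset.Icc 1 ⌊T ^ (1 - δ)⌋₊,
        (La * bp lam T ^ k) j * (bp lam T ^ k) j / j : ℝ) : ℂ) := by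
    push_cast
    rfl
  rw [h2] at he
  have h0 : 0 ≤ cG T * ∑ j ∈ Finset.Icc 1 ⌊T ^ (1 - δ)⌋₊,
        (La * bp lam T ^ k) j * (bp lam T ^ k) j / j := by
    apply mul_nonneg hcG.le
    apply Finset.sum_nonneg
    intro j _
    apply div_nonneg _ (Nat.cast_nonneg _)
    apply mul_nonneg _ (hA3 j).1
    rw [ArithmeticFunction.mul_apply]
    apply Finset.sum_nonneg
    intro p _
    exact mul_nonneg ArithmeticFunction.vonMangoldt_nonneg (hA3 _).1
  have h3 := Complex.abs_re_le_norm (-V - ((cG T * ∑ j ∈ Finset.Icc 1 ⌊T ^ (1 - δ)⌋₊,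
        (La * bp lam T ^ k) j * (bp lam T ^ k) j / j : ℝ) : ℂ))
  rw [Complex.sub_re, Complex.neg_re, Complex.ofReal_re] at h3
  have h4 := neg_le_abs (-V.re - cG T * ∑ j ∈ Finset.Icc 1 ⌊T ^ (1 - δ)⌋₊,
        (La * bp lam T ^ k) j * (bp lam T ^ k) j / j)
  linarith

/-- MOMK. -/
theorem momk (hZ : ZeroSumStatement) (hTl : TailStatement) (hE : Edge1Statement)
    (hcho : OmAsympStatement) (hLS : LSerStatement) (hM : MvfStatement) (hMov : MovStatement)
    (hchi : ChiStatement) (hDD : DDStatement) : MomkStatement := by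
  classical
  intro δ hδ0 hδ1
  obtain ⟨c, hc1, hc2⟩ : ∃ c : ℝ, 1 < c ∧ c < 3 / 2 := ⟨5 / 4, by norm_num, by norm_num⟩
  set K : ℝ := max (AN c La) 1 with hK
  have hK1 : 1 ≤ K := le_max_right _ _
  have hKLa : AN c La ≤ K := le_max_left _ _
  set A : ℝ := Real.log K + 8 with hA
  have hlogK : 0 ≤ Real.log K := Real.log_nonneg hK1
  obtain ⟨C, hC0, hC⟩ := hcho
  obtain ⟨TM, hTM3, hMM⟩ := hM δ A hδ0
  have hev := ((hZ A c hc1 hc2).and ((hTl A c (by linarith) (by linarith)).and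
    ((hTl A (1 / 2) (by norm_num) (by norm_num)).and
    ((hE (1 - δ) c A (by linarith) (by linarith) hc1 hc2).and
    ((hMov A c hc1 hc2).and hDD.2.2.1)))))
  obtain ⟨T1, hT1⟩ := Filter.eventually_atTop.1 hev
  refine ⟨10, max TM (max T1 (max 20 (max (2 * C) K))), by norm_num, ?_, ?_⟩
  · have : (20 : ℝ) ≤ max TM (max T1 (max 20 (max (2 * C) K))) :=
      (le_max_left _ _).trans ((le_max_right _ _).trans (le_max_right _ _))
    linarith
  intro T lam k hT hlam hk
  have hTM : TM ≤ T := (le_max_left _ _).trans hT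
  have hTT1 : T1 ≤ T := ((le_max_left _ _).trans (le_max_right _ _)).trans hT
  have hT20 : 20 ≤ T :=
    ((le_max_left _ _).trans ((le_max_right _ _).trans (le_max_right _ _))).trans hT
  have hTC : 2 * C ≤ T := ((le_max_left _ _).trans ((le_max_right _ _).trans
    ((le_max_right _ _).trans (le_max_right _ _)))).trans hT
  have hTK : K ≤ T := ((le_max_right _ _).trans ((le_max_right _ _).trans
    ((le_max_right _ _).trans (le_max_right _ _)))).trans hT
  obtain ⟨hZT, hTT, hTH, hET, hMovT, hDT⟩ := hT1 T hTT1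
  have hT0 : 0 < T := by linarith
  have hT1' : 1 < T := by linarith
  have hlog : 0 < Real.log T := Real.log_pos hT1'
  have hL : 1 ≤ lam * Real.log T := by
    rw [div_le_iff₀ hlog] at hlam
    exact hlam
  have hk1 : (k : ℝ) * lam ≤ 1 := by linarith
  have hcG : 0 < cG T := hDT.2.2.1
  have hTinv : 1 / T ≤ 1 := by rw [div_le_one hT0]; linarith
  obtain ⟨hA1, hA2, hA3⟩ := coeff_data hLS lam T c δ K k hT1' hL hk hδ0 hc1 hc2 hK1 hKLa hTK
  obtain ⟨hALa, -, -⟩ := hLS.2.2.2.1 c hc1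
  obtain ⟨hAb, -⟩ := AN_bp_le lam T c hL hT1' hALa
  have hpow : ∀ a b : ℝ, a ≤ b → T ^ a ≤ T ^ b :=
    fun a b h => Real.rpow_le_rpow_of_exponent_le hT1'.le h
  set F : ℂ → ℂ := fun s => BP lam T s ^ k * BP lam T (1 - s) ^ k with hF
  have hBd : Differentiable ℂ (BP lam T) := BP_diff lam T
  have hFd : Differentiable ℂ F := by
    apply (hBd.pow k).mul
    exact (hBd.comp ((differentiable_const _).sub differentiable_id)).pow k
  have hFconj : ∀ s : ℂ, (starRingEnd ℂ) (F (1 - (starRingEnd ℂ) s)) = F s := by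
    intro s
    simp only [hF]
    rw [map_mul, map_pow, map_pow, ← BP_conj, ← BP_conj, map_sub, map_one, Complex.conj_conj,
      map_sub, map_one, map_sub, map_one, Complex.conj_conj, mul_comm]
    congr 3
    ring
  have hFhalf : ∀ t : ℝ, F (1 / 2 + t * I) = ((‖BP lam T (1 / 2 + t * I) ^ k‖ ^ 2 : ℝ) : ℂ) := by
    intro t
    simp only [hF]
    have h1 : BP lam T (1 - (1 / 2 + t * I)) = (starRingEnd ℂ) (BP lam T (1 / 2 + t * I)) := by
      rw [← BP_conj]
      congr 1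
      simp only [map_add, map_mul, Complex.conj_ofReal, Complex.conj_I, map_div₀, map_one,
        map_ofNat]
      ring
    rw [h1, ← map_pow, Complex.mul_conj, Complex.normSq_eq_norm_sq]
  have hZS : ZS T (fun s => BP lam T s ^ k * (starRingEnd ℂ) (BP lam T s ^ k)) = ZS T F := by
    unfold ZS
    apply finsum_mem_congr rfl
    intro γ _
    rw [hFhalf γ]
    show _ * _ * (BP lam T (1 / 2 + γ * I) ^ k *
      (starRingEnd ℂ) (BP lam T (1 / 2 + γ * I) ^ k)) = _
    rw [Complex.mul_conj, Complex.normSq_eq_norm_sq]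
  rw [hZS]
  have hFb : ∀ s : ℂ, -1 ≤ s.re → s.re ≤ 2 → ‖F s‖ ≤ T ^ (4 : ℝ) := by
    intro s hs1 hs2
    simp only [hF]
    rw [norm_mul, norm_pow, norm_pow]
    have h1 := BP_norm_pow_le lam T k hT1' hL hk1 s hs1
    have h2 := BP_norm_pow_le lam T k hT1' hL hk1 (1 - s) (by
      rw [Complex.sub_re, Complex.one_re]; linarith)
    have h6 : T ^ (4 : ℝ) = T ^ (2 : ℝ) * T ^ (2 : ℝ) := by
      rw [← Real.rpow_add hT0]; norm_num
    rw [h6]
    gcongr
  have hz := hZT F hFd.differentiableOn (fun s hs => (hFb s (by linarith [hs.1.1])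
    (by linarith [hs.1.2])).trans (hpow _ _ (by rw [hA]; linarith)))
  simp_rw [hFconj] at hz
  have hmv := hMovT F hFd.differentiableOn (fun s hs => (hFb s (by linarith [hs.1.1])
    (by linarith [hs.1.2])).trans (hpow _ _ (by rw [hA]; linarith)))
  have hline : Continuous (fun t : ℝ => (c + t * I : ℂ)) := by fun_prop
  have hre : ∀ t : ℝ, (c + t * I : ℂ).re = c := by intro t; simp
  have hWc : Continuous (WW T) := by unfold WW; fun_prop
  -- the zeta part
  have hzeta : ∀ t : ℝ, ‖logDeriv riemannZeta (c + t * I)‖ ≤ T := by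
    intro t
    have h1 := ZBB.norm_LS_le La c hALa (c + t * I) (hre t)
    rw [hLS.1 _ (by rw [hre]; exact hc1), norm_neg] at h1
    exact h1.trans (hKLa.trans hTK)
  have h1t : ∀ t : ℝ, (1 : ℝ) ≤ (1 + |t|) ^ A := by
    intro t
    exact Real.one_le_rpow (by linarith [abs_nonneg t]) (by rw [hA]; linarith)
  have hTA0 : 0 ≤ T ^ A := by positivity
  obtain ⟨i1, t1⟩ := hTT (fun s => logDeriv riemannZeta s * F s) (by
    exact ((ZBB.meas_zeta c hc1).mul (hFd.continuous.comp hline).measurable).aestronglyMeasurable)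
    (fun t => by
      rw [norm_mul]
      have h1 : ‖logDeriv riemannZeta (c + t * I)‖ * ‖F (c + t * I)‖ ≤ T ^ A := by
        calc ‖logDeriv riemannZeta (c + t * I)‖ * ‖F (c + t * I)‖ ≤ T * T ^ (4 : ℝ) := by
              gcongr
              · exact hzeta t
              · exact hFb _ (by rw [hre]; linarith) (by rw [hre]; linarith)
          _ = T ^ (1 + 4 : ℝ) := by rw [Real.rpow_add hT0, Real.rpow_one]
          _ ≤ T ^ A := hpow _ _ (by rw [hA]; linarith)
      have := h1t t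
      nlinarith)
  obtain ⟨i2, -⟩ := hTH F (by
    have hl : Continuous (fun t : ℝ => (((1 / 2 : ℝ) : ℂ) + t * I : ℂ)) := by fun_prop
    exact (hFd.continuous.comp hl).aestronglyMeasurable) (fun t => by
      have h1 : ‖F (((1 / 2 : ℝ) : ℂ) + t * I)‖ ≤ T ^ A :=
        (hFb _ (by simp; norm_num) (by simp; norm_num)).trans (hpow _ _ (by rw [hA]; linarith))
      have := h1t t
      nlinarith)
  have hzp := zeta_part hLS c T δ A lam k hc1 hcG hT1' hk hET hA1 hA2 hA3 hAb
  set V1 := VF c T (fun s => logDeriv riemannZeta s * F s * WW T s) with hV1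
  set V3 := VF c T (fun s => om s * F s * WW T s) with hV3
  have hV1re : V1.re ≤ 2 := by
    have h1 := Complex.abs_re_le_norm (VI c (fun s => (logDeriv riemannZeta s * F s) * WW T s) - V1)
    have h2 := h1.trans t1
    rw [Complex.sub_re] at h2
    have h3 := neg_le_abs ((VI c (fun s => (logDeriv riemannZeta s * F s) * WW T s)).re - V1.re)
    have h4 : (VI c (fun s => (logDeriv riemannZeta s * F s) * WW T s)).re ≤ 1 / T := hzp
    linarith
  have hV2 : VF c T (fun s => (om s + logDeriv riemannZeta s) * F s * WW T s) = V3 + V1 := by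
    rw [hV3, hV1]
    unfold VF
    rw [← mul_add, ← intervalIntegral.integral_add]
    · congr 1
      apply intervalIntegral.integral_congr
      intro t _
      simp only
      ring
    · apply ContinuousOn.intervalIntegrable
      intro t ht
      rw [Set.uIcc_of_le (by linarith)] at ht
      have h1 : DifferentiableAt ℂ om (c + t * I) :=
        H51.om_diff hchi _ (by rw [hre]; linarith) (by
          simp only [Complex.add_im, Complex.ofReal_im, Complex.mul_im, Complex.ofReal_re,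
            Complex.I_im, Complex.I_re, mul_one, mul_zero, add_zero, zero_add]
          have := ht.1
          intro h
          linarith)
      have h2 : ContinuousAt (fun t : ℝ => om (c + t * I)) t :=
        ContinuousAt.comp (f := fun t : ℝ => (c + t * I : ℂ)) (g := om)
          h1.continuousAt hline.continuousAt
      exact ((h2.mul (hFd.continuous.comp hline).continuousAt).mul
        (hWc.comp hline).continuousAt).continuousWithinAt
    · exact i1.intervalIntegrable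
  rw [hV2] at hz
  -- the om part
  have hNM : ∀ n, ⌊T ^ (1 - δ)⌋₊ < n → (bp lam T ^ k) n = 0 := by
    intro n hn
    by_contra h
    exact absurd (Nat.le_floor (pow_supp' lam T δ k hT1' hk n h)) (by omega)
  have hQ := hMM T hTM (fun n => (bp lam T ^ k) n) hA3
  have hsq : ∑ n ∈ Finset.Icc 1 ⌊T ^ (1 - δ)⌋₊, (bp lam T ^ k) n ^ 2 / (n : ℝ) ≤ SQ lam T k := by
    unfold SQ
    apply Finset.sum_le_sum_of_subset_of_nonneg
    · apply Finset.Icc_subset_Icc_right
      apply Nat.floor_le_floor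
      calc T ^ (1 - δ) ≤ T ^ (1 : ℝ) := hpow _ _ (by linarith)
        _ = T := Real.rpow_one T
    · intro n _ _
      positivity
  have hQ' : (1 / (2 * Real.pi)) * ∫ t : ℝ, ‖BP lam T (1 / 2 + t * I) ^ k‖ ^ 2 * MS.wt T t ≤
      cG T * SQ lam T k + 1 / T := by
    have h1 : (fun t : ℝ => ‖BP lam T (1 / 2 + t * I) ^ k‖ ^ 2 * MS.wt T t) =
        fun t : ℝ => ‖∑ n ∈ Finset.Icc 1 ⌊T ^ (1 - δ)⌋₊,
      (((bp lam T ^ k) n : ℝ) : ℂ) * (n : ℂ) ^ (-(1 / 2 + t * I : ℂ))‖ ^ 2 * MS.wt T t := by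
      funext t
      rw [BP_pow hLS lam T k _ hNM]
    rw [h1]
    refine hQ.trans ?_
    gcongr
  have hom := om_line hchi C T hT1' (fun t h1 h2 => om_re_le C T hT20 hTC hC t h1 h2)
    (fun s => BP lam T s ^ k) (hBd.pow k).continuous F hFhalf i2 hFd.continuous _ hQ'
  have hV3re : V3.re ≤ 1 + Real.log T * (cG T * SQ lam T k + 1 / T) := by
    have h1 := Complex.abs_re_le_norm (V3 - VF (1 / 2) T (fun s => om s * F s * WW T s))
    have h2 := h1.trans hmv
    rw [Complex.sub_re] at h2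
    have h3 := le_abs_self (V3.re - (VF (1 / 2) T (fun s => om s * F s * WW T s)).re)
    linarith
  have hfin : (ZS T F).re ≤ 1 + V1.re + (V3.re + V1.re) := by
    have h1 := Complex.abs_re_le_norm (ZS T F - (V1 + (starRingEnd ℂ) (V3 + V1)))
    have h2 := h1.trans hz
    rw [Complex.sub_re, Complex.add_re, Complex.conj_re, Complex.add_re] at h2
    have h3 := le_abs_self ((ZS T F).re - (V1.re + (V3.re + V1.re)))
    linarith
  have hlT : Real.log T * (1 / T) ≤ 1 := by
    rw [mul_one_div, div_le_one hT0]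
    have := Real.log_le_sub_one_of_pos hT0
    linarith
  have hSQ0 : 0 ≤ SQ lam T k := by
    unfold SQ
    apply Finset.sum_nonneg
    intro n _
    positivity
  have hprod : 0 ≤ cG T * Real.log T * SQ lam T k := by positivity
  nlinarith

end Pool.Agent.Lib.MP_6bc78b_nt.MS.P5.H59
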