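import Pool.Agent.Lib.MP_6bc78b_nt.MS.P5.Iface
import Pool.Agent.Lib.MP_6bc78b_nt.MS.P5.H97.Cmb
import Pool.Agent.Lib.MP_6bc78b_nt.MS.P1.ZBB

/-! Project MS, Part V, module MOMK: auxiliary facts on the powers of the prime polynomial. -/

set_option autoImplicit false

open Complex Filter Topology MeasureTheory ArithmeticFunction

namespace Pool.Agent.Lib.MP_6bc78b_nt.MS.P5.H59

open Pool.Agent.Lib.MP_6bc78b_nt.MS Pool.Agent.Lib.MP_6bc78b_nt.MS.P1
open Pool.Agent.Lib.MP_6bc78b_nt.MS.P5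

lemma LS_fin (α : ArithmeticFunction ℝ) (N : ℕ) (h : ∀ n, N < n → α n = 0) (s : ℂ) :
    LS α s = ∑ n ∈ Finset.Icc 1 N, (α n : ℂ) * (n : ℂ) ^ (-s) := by
  unfold LS LSeries
  rw [tsum_eq_sum (s := Finset.Icc 1 N)]
  · refine Finset.sum_congr rfl (fun n hn => ?_)
    rw [Finset.mem_Icc] at hn
    rw [LSeries.term_of_ne_zero (by omega), Complex.cpow_neg, div_eq_mul_inv]
  · intro n hn
    rcases Nat.eq_zero_or_pos n with h0 | h0
    · rw [h0, LSeries.term_zero]
    · rw [LSeries.term_of_ne_zero (by omega), h n (by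
        by_contra h1
        exact hn (Finset.mem_Icc.2 ⟨h0, by omega⟩))]
      simp

lemma ASum_fin (α : ArithmeticFunction ℝ) (N : ℕ) (h : ∀ n, N < n → α n = 0) (c : ℝ) :
    ASum c α := by
  unfold ASum
  apply summable_of_ne_finset_zero (s := Finset.Icc 1 N)
  intro n hn
  rcases Nat.eq_zero_or_pos n with h0 | h0
  · rw [h0]; simp
  · rw [h n (by
        by_contra h1
        exact hn (Finset.mem_Icc.2 ⟨h0, by omega⟩))]
    simp

lemma one_supp : ∀ n, 1 < n → (1 : ArithmeticFunction ℝ) n = 0 := by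
  intro n hn
  rw [ArithmeticFunction.one_apply_ne (by omega)]

lemma pow_data (hLS : LSerStatement) (c : ℝ) (α : ArithmeticFunction ℝ) (hα : ASum c α) (k : ℕ) :
    ASum c (α ^ k) ∧ AN c (α ^ k) ≤ (AN c α) ^ k ∧ ∀ s : ℂ, s.re = c → LS (α ^ k) s = (LS α s) ^ k := by
  obtain ⟨-, -, -, -, hL5, -⟩ := hLS
  induction k with
  | zero =>
    rw [pow_zero]
    refine ⟨ASum_fin 1 1 one_supp c, ?_, ?_⟩
    · rw [pow_zero]
      unfold AN
      rw [tsum_eq_single 1]
      · simp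
      · intro n hn
        rw [ArithmeticFunction.one_apply_ne hn]
        simp
    · intro s _
      rw [pow_zero, LS_fin 1 1 one_supp s]
      simp
  | succ k ih =>
    obtain ⟨h1, h2, h3⟩ := ih
    obtain ⟨h4, h5, h6⟩ := hL5 c (α ^ k) α h1 hα
    rw [pow_succ]
    refine ⟨h4, ?_, ?_⟩
    · rw [pow_succ]
      refine h5.trans ?_
      have : 0 ≤ AN c α := tsum_nonneg (fun n => by positivity)
      gcongr
    · intro s hs
      rw [h6 s hs, h3 s hs, pow_succ]

lemma pow_supp (α : ArithmeticFunction ℝ) (z : ℝ) (hz : 0 ≤ z)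
    (h : ∀ n : ℕ, α n ≠ 0 → (n : ℝ) ≤ z) (k : ℕ) :
    ∀ n : ℕ, (α ^ k) n ≠ 0 → (n : ℝ) ≤ z ^ k := by
  induction k with
  | zero =>
    intro n hn
    rw [pow_zero] at hn ⊢
    have : n = 1 := by
      by_contra h1
      exact hn (ArithmeticFunction.one_apply_ne h1)
    rw [this]
    simp
  | succ k ih =>
    intro n hn
    rw [pow_succ, ArithmeticFunction.mul_apply] at hn
    obtain ⟨p, hp, hp2⟩ := Finset.exists_ne_zero_of_sum_ne_zero hn
    have h1 : (α ^ k) p.1 ≠ 0 := left_ne_zero_of_mul hp2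
    have h2 : α p.2 ≠ 0 := right_ne_zero_of_mul hp2
    have h3 := (Nat.mem_divisorsAntidiagonal.1 hp).1
    rw [← h3, pow_succ]
    push_cast
    have h4 := ih _ h1
    have h5 := h _ h2
    have : (0 : ℝ) ≤ (p.2 : ℝ) := Nat.cast_nonneg _
    have : 0 ≤ z ^ k := by positivity
    gcongr

lemma bp_apply (lam T : ℝ) (n : ℕ) : bp lam T n = if n.Prime then bb lam T n else 0 := rfl

lemma bb_apply (lam T : ℝ) (n : ℕ) : bb lam T n = bbf lam T n := rfl

lemma bb_nonneg (lam T : ℝ) (hL : 0 < lam * Real.log T) (hT : 1 < T) (n : ℕ) : 0 ≤ bb lam T n := by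
  rw [bb_apply]
  unfold bbf
  split_ifs with h
  · rcases Nat.eq_zero_or_pos n with hn | hn
    · subst hn
      simp
    · have hn' : (1 : ℝ) ≤ n := by exact_mod_cast hn
      have h2 : Real.log n ≤ lam * Real.log T := by
        rw [← Real.log_rpow (by linarith)]
        exact Real.log_le_log (by linarith) h
      have h4 : 0 ≤ ArithmeticFunction.vonMangoldt n := ArithmeticFunction.vonMangoldt_nonneg
      have h5 : Real.log n / (lam * Real.log T) ≤ 1 := (div_le_one hL).2 h2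
      exact div_nonneg (mul_nonneg h4 (by linarith)) hL.le
  · exact le_rfl

lemma bb_le_La (lam T : ℝ) (hL : 1 ≤ lam * Real.log T) (n : ℕ) : bb lam T n ≤ La n := by
  rw [bb_apply]
  unfold bbf La
  have h4 : 0 ≤ ArithmeticFunction.vonMangoldt n := ArithmeticFunction.vonMangoldt_nonneg
  split_ifs with h
  · have h0 : 0 < lam * Real.log T := by linarith
    have h1 : 0 ≤ Real.log n := Real.log_natCast_nonneg n
    have h6 : 0 ≤ Real.log n / (lam * Real.log T) := by positivity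
    rw [div_le_iff₀ h0]
    nlinarith
  · exact h4

lemma bp_nonneg (lam T : ℝ) (hL : 0 < lam * Real.log T) (hT : 1 < T) (n : ℕ) : 0 ≤ bp lam T n := by
  rw [bp_apply]
  split_ifs
  · exact bb_nonneg lam T hL hT n
  · exact le_rfl

lemma bp_le_La (lam T : ℝ) (hL : 1 ≤ lam * Real.log T) (n : ℕ) : bp lam T n ≤ La n := by
  rw [bp_apply]
  split_ifs
  · exact bb_le_La lam T hL n
  · exact ArithmeticFunction.vonMangoldt_nonneg

lemma bp_supp (lam T : ℝ) (n : ℕ) (h : bp lam T n ≠ 0) : (n : ℝ) ≤ T ^ lam := by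
  rw [bp_apply] at h
  split_ifs at h with h1
  · rw [bb_apply] at h
    unfold bbf at h
    by_contra h2
    rw [if_neg h2] at h
    exact h rfl
  · exact absurd rfl h

lemma AN_bp_le (lam T c : ℝ) (hL : 1 ≤ lam * Real.log T) (hT : 1 < T) (hLa : ASum c La) :
    ASum c (bp lam T) ∧ AN c (bp lam T) ≤ AN c La := by
  have h1 : ∀ n : ℕ, |bp lam T n| * (n : ℝ) ^ (-c) ≤ |La n| * (n : ℝ) ^ (-c) := by
    intro n
    have h2 := bp_nonneg lam T (by linarith) hT n
    have h3 := bp_le_La lam T hL n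
    have h4 : |bp lam T n| ≤ |La n| := by
      rw [abs_of_nonneg h2, abs_of_nonneg (h2.trans h3)]
      exact h3
    gcongr
  have h2 : ASum c (bp lam T) :=
    Summable.of_nonneg_of_le (fun n => by positivity) h1 hLa
  exact ⟨h2, Summable.tsum_le_tsum h1 h2 hLa⟩

lemma BP_eq_LS (lam T : ℝ) (s : ℂ) : BP lam T s = LS (bp lam T) s := by
  rw [LS_fin (bp lam T) ⌊T ^ lam⌋₊ ?_ s]
  · rfl
  · intro n hn
    by_contra h
    have h1 := bp_supp lam T n h
    exact absurd (Nat.le_floor h1) (by omega)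

/-- The power of the prime polynomial as a Dirichlet polynomial. -/
lemma BP_pow (hLS : LSerStatement) (lam T : ℝ) (k M : ℕ) (hM : ∀ n, M < n → (bp lam T ^ k) n = 0)
    (s : ℂ) : BP lam T s ^ k =
      ∑ n ∈ Finset.Icc 1 M, (((bp lam T ^ k) n : ℝ) : ℂ) * (n : ℂ) ^ (-s) := by
  have hA : ASum s.re (bp lam T) := ASum_fin _ ⌊T ^ lam⌋₊ (by
    intro n hn
    by_contra h
    exact absurd (Nat.le_floor (bp_supp lam T n h)) (by omega)) _
  obtain ⟨-, -, h3⟩ := pow_data hLS s.re (bp lam T) hA k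
  rw [BP_eq_LS, ← h3 s rfl, LS_fin _ M hM s]

lemma pow_supp' (lam T δ : ℝ) (k : ℕ) (hT : 1 < T) (hk : k * lam ≤ 1 - δ) (n : ℕ)
    (hn : (bp lam T ^ k) n ≠ 0) : (n : ℝ) ≤ T ^ (1 - δ) := by
  have h1 := pow_supp (bp lam T) (T ^ lam) (by positivity) (bp_supp lam T) k n hn
  refine h1.trans ?_
  rw [← Real.rpow_natCast, ← Real.rpow_mul (by linarith)]
  exact Real.rpow_le_rpow_of_exponent_le hT.le (by linarith)

lemma BP_norm_pow_le (lam T : ℝ) (k : ℕ) (hT : 1 < T) (hL : 1 ≤ lam * Real.log T)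
    (hk : k * lam ≤ 1) (s : ℂ) (hs : -1 ≤ s.re) : ‖BP lam T s‖ ^ k ≤ T ^ (2 : ℝ) := by
  have hT0 : 0 < T := by linarith
  have hlam : 0 < lam := by
    have : 0 < Real.log T := Real.log_pos hT
    by_contra h
    push Not at h
    nlinarith
  have hz : 0 ≤ T ^ lam := by positivity
  have h1 : ‖BP lam T s‖ ≤ T ^ lam * T ^ lam := by
    unfold BP dpoly
    have hN : ((⌊T ^ lam⌋₊ : ℕ) : ℝ) ≤ T ^ lam := Nat.floor_le hz
    have h2 : ∀ n ∈ Finset.Icc 1 ⌊T ^ lam⌋₊, ‖((bp lam T n : ℝ) : ℂ) * (n : ℂ) ^ (-s)‖ ≤ T ^ lam := by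
      intro n hn
      rw [Finset.mem_Icc] at hn
      have hn' : (1 : ℝ) ≤ n := by exact_mod_cast hn.1
      have hn2 : (n : ℝ) ≤ T ^ lam := by
        have : (n : ℝ) ≤ (⌊T ^ lam⌋₊ : ℕ) := by exact_mod_cast hn.2
        linarith
      rw [norm_mul, Complex.norm_real, Real.norm_eq_abs,
        Complex.norm_natCast_cpow_of_pos (by omega)]
      have h3 : |bp lam T n| ≤ 1 := by
        rw [bp_apply]
        split_ifs
        · exact ZBB.abs_bb_le lam T hlam hT n
        · simp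
      have h4 : (n : ℝ) ^ (-s).re ≤ n := by
        calc (n : ℝ) ^ (-s).re ≤ (n : ℝ) ^ (1 : ℝ) :=
              Real.rpow_le_rpow_of_exponent_le hn' (by rw [Complex.neg_re]; linarith)
          _ = n := Real.rpow_one _
      calc |bp lam T n| * (n : ℝ) ^ (-s).re ≤ 1 * n := by gcongr
        _ ≤ T ^ lam := by linarith
    refine le_trans (norm_sum_le _ _) (le_trans (Finset.sum_le_sum h2) ?_)
    rw [Finset.sum_const, Nat.card_Icc, nsmul_eq_mul]
    have h3 : ((⌊T ^ lam⌋₊ + 1 - 1 : ℕ) : ℝ) ≤ T ^ lam := by simpa using hN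
    gcongr
  calc ‖BP lam T s‖ ^ k ≤ (T ^ lam * T ^ lam) ^ k := by gcongr
    _ = T ^ (2 * (k * lam)) := by
        rw [← Real.rpow_add hT0, ← Real.rpow_natCast, ← Real.rpow_mul hT0.le]
        congr 1
        ring
    _ ≤ T ^ (2 : ℝ) := Real.rpow_le_rpow_of_exponent_le hT.le (by linarith)

lemma k_le_log (lam T : ℝ) (k : ℕ) (hT : 1 < T) (hL : 1 ≤ lam * Real.log T)
    (hk : k * lam ≤ 1) : (k : ℝ) ≤ Real.log T := by
  have h1 : 0 < Real.log T := Real.log_pos hT
  have h2 : (k : ℝ) ≤ k * (lam * Real.log T) := by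
    have : (0 : ℝ) ≤ k := Nat.cast_nonneg k
    nlinarith
  have h3 : (k : ℝ) * (lam * Real.log T) = (k * lam) * Real.log T := by ring
  rw [h3] at h2
  nlinarith

lemma K_pow_le (K T : ℝ) (k : ℕ) (hK : 1 ≤ K) (hT : 1 < T) (hk : (k : ℝ) ≤ Real.log T) :
    K ^ k ≤ T ^ Real.log K := by
  have h1 : T ^ Real.log K = K ^ Real.log T := by
    rw [Real.rpow_def_of_pos (by linarith), Real.rpow_def_of_pos (by linarith), mul_comm]
  rw [h1, ← Real.rpow_natCast]
  exact Real.rpow_le_rpow_of_exponent_le hK hk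

/-- The data for EDG1 and MVF. -/
lemma coeff_data (hLS : LSerStatement) (lam T c δ K : ℝ) (k : ℕ) (hT : 1 < T)
    (hL : 1 ≤ lam * Real.log T) (hk : k * lam ≤ 1 - δ) (hδ : 0 < δ) (hc : 1 < c) (hc2 : c < 3 / 2)
    (hK : 1 ≤ K) (hKLa : AN c La ≤ K) (hKT : K ≤ T) :
    ASum c (La * bp lam T ^ k) ∧ AN c (La * bp lam T ^ k) ≤ T ^ (Real.log K + 8) ∧
    (∀ n, 0 ≤ (bp lam T ^ k) n ∧ (bp lam T ^ k) n ≤ T ^ (Real.log K + 8)) := by
  have hT0 : 0 < T := by linarith
  obtain ⟨hALa, -, -⟩ := hLS.2.2.2.1 c hc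
  obtain ⟨hb1, hb2⟩ := AN_bp_le lam T c hL hT hALa
  obtain ⟨hp1, hp2, -⟩ := pow_data hLS c (bp lam T) hb1 k
  obtain ⟨h4, h5, -⟩ := hLS.2.2.2.2.1 c La (bp lam T ^ k) hALa hp1
  have hk1 : (k : ℝ) * lam ≤ 1 := by linarith
  have hkL := k_le_log lam T k hT hL hk1
  have hKk := K_pow_le K T k hK hT hkL
  have hAN0 : 0 ≤ AN c (bp lam T) := tsum_nonneg (fun n => by positivity)
  have hANk : AN c (bp lam T ^ k) ≤ T ^ Real.log K := by
    refine hp2.trans (le_trans ?_ hKk)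
    have : AN c (bp lam T) ≤ K := hb2.trans hKLa
    gcongr
  have hANk0 : 0 ≤ AN c (bp lam T ^ k) := tsum_nonneg (fun n => by positivity)
  have hpow : ∀ a b : ℝ, a ≤ b → T ^ a ≤ T ^ b :=
    fun a b h => Real.rpow_le_rpow_of_exponent_le hT.le h
  refine ⟨h4, ?_, ?_⟩
  · refine h5.trans ?_
    calc AN c La * AN c (bp lam T ^ k) ≤ T * T ^ Real.log K := by
          gcongr
          exact hKLa.trans hKT
      _ = T ^ (1 + Real.log K) := by rw [Real.rpow_add hT0, Real.rpow_one]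
      _ ≤ T ^ (Real.log K + 8) := hpow _ _ (by linarith)
  · intro n
    have h0 : 0 ≤ (bp lam T ^ k) n :=
      H97.pow_nonneg' (bp lam T) (bp_nonneg lam T (by linarith) hT) k n
    refine ⟨h0, ?_⟩
    by_cases hn : (bp lam T ^ k) n = 0
    · rw [hn]; positivity
    · have h1 := pow_supp' lam T δ k hT hk n hn
      have h2 : (n : ℝ) ≤ T := by
        refine h1.trans ?_
        calc T ^ (1 - δ) ≤ T ^ (1 : ℝ) := hpow _ _ (by linarith)
          _ = T := Real.rpow_one T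
      have hn0 : 0 < n := by
        rcases Nat.eq_zero_or_pos n with h | h
        · rw [h] at hn; simp at hn
        · exact h
      have hn0' : (0 : ℝ) < n := by exact_mod_cast hn0
      have h3 : |(bp lam T ^ k) n| * (n : ℝ) ^ (-c) ≤ AN c (bp lam T ^ k) :=
        hp1.le_tsum n (fun m _ => by positivity)
      rw [abs_of_nonneg h0] at h3
      have h6 : (bp lam T ^ k) n = ((bp lam T ^ k) n * (n : ℝ) ^ (-c)) * (n : ℝ) ^ c := by
        rw [mul_assoc, ← Real.rpow_add hn0']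
        simp
      rw [h6]
      calc ((bp lam T ^ k) n * (n : ℝ) ^ (-c)) * (n : ℝ) ^ c ≤ T ^ Real.log K * T ^ c := by
            gcongr
            exact h3.trans hANk
        _ = T ^ (Real.log K + c) := by rw [Real.rpow_add hT0]
        _ ≤ T ^ (Real.log K + 8) := hpow _ _ (by linarith)

end Pool.Agent.Lib.MP_6bc78b_nt.MS.P5.H59
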